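import Pool.Agent.S07544

/-!
# `g(n) ≤ (19/24 + o(1)) n²`: the conjectured asymptotic value `4/5` is wrong

`g(n)` is the least number of pairwise disjoint products of bicliques of `K_n` whose union is
`E(K_n) × E(K_n)`. The edge set of `K_n` is the disjoint union of about `n / 3` blow-ups of `K_4`
(with classes `{3j}`, `{3j+1}`, `{3j+2}` and `{v ≥ 3j+3}`), and `E(K_4) × E(K_n)` has a partition
into `(19/8 + o(1)) n` products of bicliques (file `Pool.Agent.S07544`).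
-/

set_option autoImplicit false
open Finset

namespace Pool.Agent.Results.MP_12ff4f_co.BelowFourFifths

/-- The edge set of the biclique with vertex classes `A` and `B`. -/
def bicliqueEdges {n : ℕ} (A B : Finset (Fin n)) : Set (Sym2 (Fin n)) :=
  {e | ∃ a ∈ A, ∃ b ∈ B, e = s(a, b)}

/-- A block: the product of the edge sets of two bicliques of `K_n` (with disjoint nonempty
classes). -/
def IsBlock {n : ℕ} (S : Set (Sym2 (Fin n) × Sym2 (Fin n))) : Prop :=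
  ∃ A B C D : Finset (Fin n), A.Nonempty ∧ B.Nonempty ∧ Disjoint A B ∧
    C.Nonempty ∧ D.Nonempty ∧ Disjoint C D ∧ S = bicliqueEdges A B ×ˢ bicliqueEdges C D

/-- `g(n)`: the least number of pairwise disjoint blocks whose union is `E(K_n) × E(K_n)`. -/
noncomputable def g (n : ℕ) : ℕ :=
  sInf {k | ∃ F : Finset (Set (Sym2 (Fin n) × Sym2 (Fin n))), F.card = k ∧
    (∀ S ∈ F, IsBlock S) ∧ (F : Set (Set (Sym2 (Fin n) × Sym2 (Fin n)))).PairwiseDisjoint id ∧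
    ⋃ S ∈ F, S = (⊤ : SimpleGraph (Fin n)).edgeSet ×ˢ (⊤ : SimpleGraph (Fin n)).edgeSet}

theorem mem_bicliqueEdges {n : ℕ} {A B : Finset (Fin n)} {x y : Fin n} :
    s(x, y) ∈ bicliqueEdges A B ↔ (x ∈ A ∧ y ∈ B) ∨ (y ∈ A ∧ x ∈ B) := by
  unfold bicliqueEdges
  simp only [Set.mem_ofPred_eq, Sym2.eq_iff]
  constructor
  · rintro ⟨a, ha, b, hb, ⟨rfl, rfl⟩ | ⟨rfl, rfl⟩⟩
    · exact Or.inl ⟨ha, hb⟩
    · exact Or.inr ⟨ha, hb⟩
  · rintro (⟨h1, h2⟩ | ⟨h1, h2⟩)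
    · exact ⟨x, h1, y, h2, Or.inl ⟨rfl, rfl⟩⟩
    · exact ⟨y, h1, x, h2, Or.inr ⟨rfl, rfl⟩⟩

/-- An indexed exact cover gives an upper bound for `g`. -/
theorem g_le {n : ℕ} {ι : Type} [Fintype ι] (A B C D : ι → Finset (Fin n))
    (hd : ∀ i, Disjoint (A i) (B i) ∧ Disjoint (C i) (D i))
    (h : ∀ x y u v : Fin n, x ≠ y → u ≠ v →
      ∃! i, ((x ∈ A i ∧ y ∈ B i) ∨ (y ∈ A i ∧ x ∈ B i)) ∧
        ((u ∈ C i ∧ v ∈ D i) ∨ (v ∈ C i ∧ u ∈ D i))) :
    g n ≤ Fintype.card ι := by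
  classical
  let I : Finset ι := univ.filter fun i =>
    (A i).Nonempty ∧ (B i).Nonempty ∧ (C i).Nonempty ∧ (D i).Nonempty
  let f : ι → Set (Sym2 (Fin n) × Sym2 (Fin n)) := fun i =>
    bicliqueEdges (A i) (B i) ×ˢ bicliqueEdges (C i) (D i)
  have key : ∀ x y u v : Fin n, ∀ i, (s(x, y), s(u, v)) ∈ f i ↔
      (((x ∈ A i ∧ y ∈ B i) ∨ (y ∈ A i ∧ x ∈ B i)) ∧
        ((u ∈ C i ∧ v ∈ D i) ∨ (v ∈ C i ∧ u ∈ D i))) := by
    intro x y u v i
    simp only [f, Set.mem_prod, mem_bicliqueEdges]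
  have hdiag : ∀ x y u v : Fin n, ∀ i, (s(x, y), s(u, v)) ∈ f i → x ≠ y ∧ u ≠ v := by
    intro x y u v i hi
    rw [key] at hi
    constructor
    · rintro rfl
      rcases hi.1 with h1 | h1
      · exact (disjoint_left.mp (hd i).1) h1.1 h1.2
      · exact (disjoint_left.mp (hd i).1) h1.1 h1.2
    · rintro rfl
      rcases hi.2 with h1 | h1
      · exact (disjoint_left.mp (hd i).2) h1.1 h1.2
      · exact (disjoint_left.mp (hd i).2) h1.1 h1.2
  have hmem : (I.image f).card ∈ {k | ∃ F : Finset (Set (Sym2 (Fin n) × Sym2 (Fin n))),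
      F.card = k ∧ (∀ S ∈ F, IsBlock S) ∧
      (F : Set (Set (Sym2 (Fin n) × Sym2 (Fin n)))).PairwiseDisjoint id ∧
      ⋃ S ∈ F, S = (⊤ : SimpleGraph (Fin n)).edgeSet ×ˢ (⊤ : SimpleGraph (Fin n)).edgeSet} := by
    refine ⟨I.image f, rfl, ?_, ?_, ?_⟩
    · intro S hS
      obtain ⟨i, hi, rfl⟩ := mem_image.mp hS
      rw [mem_filter] at hi
      exact ⟨A i, B i, C i, D i, hi.2.1, hi.2.2.1, (hd i).1, hi.2.2.2.1, hi.2.2.2.2, (hd i).2, rfl⟩
    · intro S hS T hT hST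
      rw [mem_coe] at hS hT
      obtain ⟨i, hi, rfl⟩ := mem_image.mp hS
      obtain ⟨j, hj, rfl⟩ := mem_image.mp hT
      rw [Function.onFun, id, id, Set.disjoint_left]
      rintro ⟨e1, e2⟩ h1 h2
      apply hST
      induction e1 using Sym2.ind with
      | _ x y =>
        induction e2 using Sym2.ind with
        | _ u v =>
          have hne := hdiag x y u v i h1
          obtain ⟨k, -, hk⟩ := h x y u v hne.1 hne.2
          rw [hk i ((key x y u v i).mp h1), hk j ((key x y u v j).mp h2)]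
    · ext ⟨e1, e2⟩
      induction e1 using Sym2.ind with
      | _ x y =>
        induction e2 using Sym2.ind with
        | _ u v =>
          simp only [Set.mem_iUnion, exists_prop, mem_image, Set.mem_prod, SimpleGraph.mem_edgeSet,
            SimpleGraph.top_adj]
          constructor
          · rintro ⟨S, ⟨i, hi, rfl⟩, hS⟩
            exact hdiag x y u v i hS
          · rintro ⟨h1, h2⟩
            obtain ⟨i, hi, -⟩ := h x y u v h1 h2
            refine ⟨f i, ⟨i, ?_, rfl⟩, (key x y u v i).mpr hi⟩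
            rw [mem_filter]
            refine ⟨mem_univ _, ?_⟩
            obtain ⟨h3, h4⟩ := hi
            rcases h3 with ⟨h5, h6⟩ | ⟨h5, h6⟩ <;> rcases h4 with ⟨h7, h8⟩ | ⟨h7, h8⟩ <;>
              exact ⟨⟨_, h5⟩, ⟨_, h6⟩, ⟨_, h7⟩, ⟨_, h8⟩⟩
  exact (Nat.sInf_le hmem).trans (card_image_le.trans (card_le_univ I))

/-- The class of the vertex `v` in the `j`-th blow-up of `K_4`. -/
def cls {n : ℕ} (j : ℕ) (v : Fin n) : Option (Fin 4) :=
  if (v : ℕ) = 3 * j then some 0 else if (v : ℕ) = 3 * j + 1 then some 1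
  else if (v : ℕ) = 3 * j + 2 then some 2 else if 3 * j + 3 ≤ (v : ℕ) then some 3 else none

theorem cls_lt {n : ℕ} {x y : Fin n} (h : x < y) (j : ℕ) :
    (∃ a b, cls j x = some a ∧ cls j y = some b ∧ a ≠ b) ↔ j = (x : ℕ) / 3 := by
  have hlt : (x : ℕ) < y := h
  unfold cls
  constructor
  · rintro ⟨a, b, ha, hb, hab⟩
    by_contra hj
    apply hab
    split_ifs at ha hb <;>
      first
      | (exfalso; omega)
      | (rw [Option.some_inj] at ha hb; rw [← ha, ← hb])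
  · intro hj
    have h1 : (x : ℕ) = 3 * j ∨ (x : ℕ) = 3 * j + 1 ∨ (x : ℕ) = 3 * j + 2 := by omega
    split_ifs <;>
      first
      | (exfalso; omega)
      | exact ⟨_, _, rfl, rfl, by decide⟩

theorem cls_ne {n : ℕ} {x y : Fin n} (h : x ≠ y) :
    ∃ j0 ≤ n / 3, ∀ j, (∃ a b, cls j x = some a ∧ cls j y = some b ∧ a ≠ b) ↔ j = j0 := by
  rcases lt_or_gt_of_ne h with h | h
  · exact ⟨(x : ℕ) / 3, Nat.div_le_div_right x.2.le, cls_lt h⟩
  · refine ⟨(y : ℕ) / 3, Nat.div_le_div_right y.2.le, fun j => ?_⟩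
    rw [← cls_lt h j]
    constructor
    · rintro ⟨a, b, h1, h2, h3⟩
      exact ⟨b, a, h2, h1, h3.symm⟩
    · rintro ⟨a, b, h1, h2, h3⟩
      exact ⟨b, a, h2, h1, h3.symm⟩

/-- From a partition of `E(K_4) × E(K_m)` to one of `E(K_n) × E(K_n)`, where `n ≤ m`. -/
theorem g_le_of {n m k : ℕ} (hnm : n ≤ m)
    (A B : Fin k → Finset (Fin 4)) (C D : Fin k → Finset (Fin m))
    (hd : ∀ i, Disjoint (A i) (B i) ∧ Disjoint (C i) (D i))
    (h : ∀ x y : Fin 4, ∀ u v : Fin m, x ≠ y → u ≠ v →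
      ∃! i, ((x ∈ A i ∧ y ∈ B i) ∨ (y ∈ A i ∧ x ∈ B i)) ∧
        ((u ∈ C i ∧ v ∈ D i) ∨ (v ∈ C i ∧ u ∈ D i))) :
    g n ≤ (n / 3 + 1) * k := by
  classical
  have hg := g_le (ι := Fin (n / 3 + 1) × Fin k)
    (fun p => univ.filter fun v : Fin n => ∃ a ∈ A p.2, cls (p.1 : ℕ) v = some a)
    (fun p => univ.filter fun v : Fin n => ∃ a ∈ B p.2, cls (p.1 : ℕ) v = some a)
    (fun p => univ.filter fun v : Fin n => Fin.castLE hnm v ∈ C p.2)
    (fun p => univ.filter fun v : Fin n => Fin.castLE hnm v ∈ D p.2) ?_ ?_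
  · simpa using hg
  · rintro ⟨j, i⟩
    constructor
    · rw [disjoint_left]
      intro v h1 h2
      simp only [mem_filter, mem_univ, true_and] at h1 h2
      obtain ⟨a, ha, ha'⟩ := h1
      obtain ⟨b, hb, hb'⟩ := h2
      have hab : a = b := by
        rw [ha', Option.some_inj] at hb'
        exact hb'
      rw [hab] at ha
      exact (disjoint_left.mp (hd i).1) ha hb
    · rw [disjoint_left]
      intro v h1 h2
      simp only [mem_filter, mem_univ, true_and] at h1 h2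
      exact (disjoint_left.mp (hd i).2) h1 h2
  · intro x y u v hxy huv
    obtain ⟨j0, hj0, hj⟩ := cls_ne hxy
    obtain ⟨a, b, ha, hb, hab⟩ := (hj j0).mpr rfl
    have huv' : Fin.castLE hnm u ≠ Fin.castLE hnm v := fun hh => huv (Fin.castLE_injective hnm hh)
    obtain ⟨i, hi, hu⟩ := h a b _ _ hab huv'
    refine ⟨(⟨j0, by omega⟩, i), ?_, ?_⟩
    · simp only [mem_filter, mem_univ, true_and]
      refine ⟨?_, hi.2⟩
      rcases hi.1 with h1 | h1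
      · exact Or.inl ⟨⟨a, h1.1, ha⟩, ⟨b, h1.2, hb⟩⟩
      · exact Or.inr ⟨⟨b, h1.1, hb⟩, ⟨a, h1.2, ha⟩⟩
    · rintro ⟨j, i'⟩ hji
      simp only [mem_filter, mem_univ, true_and] at hji
      obtain ⟨h1, h2⟩ := hji
      have h3 : (j : ℕ) = j0 := by
        rw [← hj]
        rcases h1 with ⟨⟨a', ha', ha''⟩, b', hb', hb''⟩ | ⟨⟨b', hb', hb''⟩, a', ha', ha''⟩
        · refine ⟨a', b', ha'', hb'', ?_⟩
          rintro rfl
          exact (disjoint_left.mp (hd i').1) ha' hb'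
        · refine ⟨a', b', ha'', hb'', ?_⟩
          rintro rfl
          exact (disjoint_left.mp (hd i').1) hb' ha'
      have h4 : i' = i := by
        apply hu
        refine ⟨?_, h2⟩
        rw [h3] at h1
        rcases h1 with ⟨⟨a', ha', ha''⟩, b', hb', hb''⟩ | ⟨⟨b', hb', hb''⟩, a', ha', ha''⟩
        · rw [ha, Option.some_inj] at ha''
          rw [hb, Option.some_inj] at hb''
          subst ha'' hb''
          exact Or.inl ⟨ha', hb'⟩
        · rw [ha, Option.some_inj] at ha''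
          rw [hb, Option.some_inj] at hb''
          subst ha'' hb''
          exact Or.inr ⟨hb', ha'⟩
      rw [Prod.ext_iff]
      exact ⟨Fin.ext h3, h4⟩

/-- The explicit bound. -/
theorem g_le_explicit (n q : ℕ) (h : n ≤ 8 * q ^ 5) :
    g n ≤ (n / 3 + 1) * (19 * q ^ 5 + 5120 * q ^ 4) := by
  obtain ⟨A, B, C, D, hd, hh⟩ := Pool.Agent.S07544.construction q
  exact g_le_of h A B C D hd hh

theorem pow_bounds (p : ℝ) (hp : 1000 ≤ p) :
    (p + 1) ^ 5 ≤ p ^ 5 + 6 * p ^ 4 ∧ (p + 1) ^ 4 ≤ 2 * p ^ 4 := by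
  have e4 : p ^ 4 = p * p ^ 3 := by ring
  have e3 : p ^ 3 = p * p ^ 2 := by ring
  have e2 : p ^ 2 = p * p := by ring
  have g2 : (1000 : ℝ) * p ≤ p ^ 2 := by rw [e2]; nlinarith
  have g3 : (1000 : ℝ) * p ^ 2 ≤ p ^ 3 := by
    rw [e3]; exact mul_le_mul_of_nonneg_right hp (by positivity)
  have g4 : (1000 : ℝ) * p ^ 3 ≤ p ^ 4 := by
    rw [e4]; exact mul_le_mul_of_nonneg_right hp (by positivity)
  constructor
  · have e : (p + 1) ^ 5 = p ^ 5 + 5 * p ^ 4 + (10 * p ^ 3 + 10 * p ^ 2 + 5 * p + 1) := by ring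
    rw [e]
    linarith
  · have e : (p + 1) ^ 4 = p ^ 4 + (4 * p ^ 3 + 6 * p ^ 2 + 4 * p + 1) := by ring
    rw [e]
    linarith

theorem real_ineq (ε p n G D : ℝ) (hε : 0 < ε) (hp : 1000 ≤ p) (hpε : 1000 ≤ ε * p)
    (hnp : 8 * p ^ 5 ≤ n) (hD0 : 0 ≤ D) (hD : D ≤ n / 3)
    (hG : G ≤ (D + 1) * (19 * (p + 1) ^ 5 + 5120 * (p + 1) ^ 4)) :
    G ≤ (19 / 24 + ε) * n ^ 2 := by
  have hp0 : (0 : ℝ) < p := by linarith
  have hp5 : (0 : ℝ) < p ^ 5 := by positivity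
  have hp4 : (0 : ℝ) < p ^ 4 := by positivity
  obtain ⟨h5, h4⟩ := pow_bounds p hp
  have e5 : p ^ 5 = p * p ^ 4 := by ring
  have hK : 19 * (p + 1) ^ 5 + 5120 * (p + 1) ^ 4 ≤ 19 * p ^ 5 + 10354 * p ^ 4 := by linarith
  have hK2 : 19 * p ^ 5 + 10354 * p ^ 4 ≤ (19 + 11 * ε) * p ^ 5 := by
    have h1 : 10354 ≤ 11 * (ε * p) := by linarith
    have h2 : 10354 * p ^ 4 ≤ 11 * (ε * p) * p ^ 4 := mul_le_mul_of_nonneg_right h1 hp4.le
    have h3 : 11 * (ε * p) * p ^ 4 = 11 * ε * p ^ 5 := by rw [e5]; ring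
    linarith
  have h1p : (1 : ℝ) ≤ p ^ 4 := one_le_pow₀ (by linarith)
  have hnp' : 8 * p ≤ n := by
    have : p * 1 ≤ p * p ^ 4 := mul_le_mul_of_nonneg_left h1p hp0.le
    linarith
  have hn0 : (8000 : ℝ) ≤ n := by linarith
  have hK3 : 19 * (p + 1) ^ 5 + 5120 * (p + 1) ^ 4 ≤ (19 + 11 * ε) * (n / 8) := by
    have h6 : p ^ 5 ≤ n / 8 := by linarith
    have h0 : 0 ≤ 19 + 11 * ε := by positivity
    exact (hK.trans hK2).trans (mul_le_mul_of_nonneg_left h6 h0)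
  have hnε : 19 / 8 + 11 / 8 * ε ≤ ε * n / 100 := by
    have h7 : ε * (8 * p) ≤ ε * n := mul_le_mul_of_nonneg_left hnp' hε.le
    have h8 : ε * 8000 ≤ ε * n := mul_le_mul_of_nonneg_left hn0 hε.le
    nlinarith
  have hn' : (0 : ℝ) ≤ n := by linarith
  calc G ≤ (D + 1) * (19 * (p + 1) ^ 5 + 5120 * (p + 1) ^ 4) := hG
    _ ≤ (n / 3 + 1) * ((19 + 11 * ε) * (n / 8)) :=
        mul_le_mul (by linarith) hK3 (by positivity) (by linarith)
    _ = (19 / 24 + 11 / 24 * ε) * n ^ 2 + (19 / 8 + 11 / 8 * ε) * n := by ring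
    _ ≤ (19 / 24 + 11 / 24 * ε) * n ^ 2 + (ε * n / 100) * n := by
        have := mul_le_mul_of_nonneg_right hnε hn'
        linarith
    _ ≤ (19 / 24 + ε) * n ^ 2 := by
        have h9 : 0 ≤ ε * n ^ 2 := by positivity
        nlinarith

theorem exists_q (Q n : ℕ) (hn : 8 * Q ^ 5 + 1 ≤ n) :
    ∃ p, Q ≤ p ∧ 8 * p ^ 5 ≤ n ∧ n ≤ 8 * (p + 1) ^ 5 := by
  classical
  have hex : ∃ q : ℕ, n ≤ 8 * q ^ 5 :=
    ⟨n, by have := Nat.le_self_pow (n := 5) (by norm_num) n; omega⟩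
  obtain ⟨q, hq1, hq2⟩ : ∃ q : ℕ, n ≤ 8 * q ^ 5 ∧ ∀ r < q, ¬ n ≤ 8 * r ^ 5 :=
    ⟨Nat.find hex, Nat.find_spec hex, fun r hr => Nat.find_min hex hr⟩
  have hQq : Q < q := by
    by_contra hcon
    push Not at hcon
    have := Nat.pow_le_pow_left hcon 5
    omega
  obtain ⟨p, rfl⟩ : ∃ p, q = p + 1 := ⟨q - 1, by omega⟩
  have := hq2 p (Nat.lt_succ_self p)
  exact ⟨p, by omega, by omega, hq1⟩

theorem g_upper (ε : ℝ) (hε : 0 < ε) : ∃ N : ℕ, ∀ n : ℕ, N ≤ n →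
    (g n : ℝ) ≤ (19 / 24 + ε) * (n : ℝ) ^ 2 := by
  obtain ⟨Q0, hQ0⟩ := exists_nat_gt (1000 / ε)
  obtain ⟨Q, hQa, hQb⟩ : ∃ Q, Q0 ≤ Q ∧ 1000 ≤ Q := ⟨max Q0 1000, le_max_left _ _, le_max_right _ _⟩
  refine ⟨8 * Q ^ 5 + 1, fun n hn => ?_⟩
  obtain ⟨p, hp, hnp, hn2⟩ := exists_q Q n hn
  have hg := g_le_explicit n (p + 1) hn2
  have hg' : (g n : ℝ) ≤ (((n / 3 : ℕ) : ℝ) + 1) *
      (19 * ((p : ℝ) + 1) ^ 5 + 5120 * ((p : ℝ) + 1) ^ 4) := by
    exact_mod_cast hg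
  have hp1000 : (1000 : ℝ) ≤ (p : ℝ) := by exact_mod_cast hQb.trans hp
  have hpε : 1000 ≤ ε * (p : ℝ) := by
    have h1 : (Q0 : ℝ) ≤ (p : ℝ) := by exact_mod_cast hQa.trans hp
    rw [div_lt_iff₀ hε] at hQ0
    nlinarith
  have hnp' : 8 * (p : ℝ) ^ 5 ≤ (n : ℝ) := by exact_mod_cast hnp
  exact real_ineq ε p n _ _ hε hp1000 hpε hnp' (Nat.cast_nonneg _) Nat.cast_div_le hg'

/-- `g(n) ≤ (19/24 + o(1)) n²`; in particular `g(n) / n²` does not converge to `4/5`. -/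
theorem result :
    (∀ ε : ℝ, 0 < ε → ∃ N : ℕ, ∀ n : ℕ, N ≤ n → (g n : ℝ) ≤ (19 / 24 + ε) * (n : ℝ) ^ 2) ∧
    ¬ Filter.Tendsto (fun n : ℕ => (g n : ℝ) / (n : ℝ) ^ 2) Filter.atTop (nhds (4 / 5)) := by
  refine ⟨g_upper, fun h => ?_⟩
  rw [Metric.tendsto_atTop] at h
  obtain ⟨N1, hN1⟩ := h (1 / 1000) (by norm_num)
  obtain ⟨N2, hN2⟩ := g_upper (1 / 1000) (by norm_num)
  have h1 := hN1 (max (max N1 N2) 1) ((le_max_left _ _).trans (le_max_left _ _))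
  have h2 := hN2 (max (max N1 N2) 1) ((le_max_right _ _).trans (le_max_left _ _))
  set n := max (max N1 N2) 1
  have hn : (0 : ℝ) < (n : ℝ) ^ 2 := by
    have : 1 ≤ n := le_max_right _ _
    positivity
  rw [Real.dist_eq, abs_lt] at h1
  have h3 := h1.1
  rw [← div_le_iff₀ hn] at h2
  linarith

end Pool.Agent.Results.MP_12ff4f_co.BelowFourFifths
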